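import Pool.Agent.helper86.BK.Spec2

/-! COVA: greedy covering. -/

set_option autoImplicit false

namespace Pool.Agent.BK

lemma COVA_step (R : Finset ℤ) (rel : ℤ → ℤ → Prop) [∀ x, DecidablePred (rel x)] (κ : ℝ)
    (hR : R.Nonempty) (X' : Finset ℤ)
    (h : ∀ x ∈ X', κ * R.card ≤ (R.filter (rel x)).card) :
    ∃ s ∈ R, κ * X'.card ≤ (X'.filter (fun x => rel x s)).card := by
  by_contra hcon
  push Not at hcon
  have h1 : ∑ s ∈ R, ((X'.filter (fun x => rel x s)).card : ℝ) < ∑ s ∈ R, κ * X'.card :=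
    Finset.sum_lt_sum_of_nonempty hR hcon
  have h2 : ∑ x ∈ X', κ * R.card ≤ ∑ x ∈ X', ((R.filter (rel x)).card : ℝ) :=
    Finset.sum_le_sum h
  have h3 : ∑ s ∈ R, ((X'.filter (fun x => rel x s)).card : ℝ) =
      ∑ x ∈ X', ((R.filter (rel x)).card : ℝ) := by
    have h4 : ∑ s ∈ R, (X'.filter (fun x => rel x s)).card =
        ∑ x ∈ X', (R.filter (rel x)).card := by
      simp only [Finset.card_filter]
      exact Finset.sum_comm
    exact_mod_cast h4
  rw [Finset.sum_const, nsmul_eq_mul] at h1 h2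
  rw [h3] at h1
  have h5 : (X'.card : ℝ) * (κ * R.card) = R.card * (κ * X'.card) := by ring
  rw [h5] at h2
  linarith

theorem COVA : COVA_stmt := by
  intro X R rel _ κ hκ hR h
  rcases X.eq_empty_or_nonempty with rfl | hX
  · refine ⟨∅, Finset.empty_subset _, ?_, fun x hx => absurd hx (Finset.notMem_empty x)⟩
    simp only [Finset.card_empty, Nat.cast_zero, Real.log_zero, zero_add]
    positivity
  have hκ1 : κ ≤ 1 := by
    obtain ⟨x, hx⟩ := hX
    have h1 := h x hx
    have h2 : ((R.filter (rel x)).card : ℝ) ≤ R.card := by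
      exact_mod_cast Finset.card_filter_le _ _
    have h3 : (0 : ℝ) < R.card := by exact_mod_cast hR.card_pos
    have h4 : κ * R.card ≤ 1 * R.card := by linarith
    exact le_of_mul_le_mul_right h4 h3
  have claim : ∀ T : ℕ, ∃ F : Finset ℤ, F ⊆ R ∧ F.card ≤ T ∧
      ((X.filter (fun x => ∀ s ∈ F, ¬ rel x s)).card : ℝ) ≤ X.card * (1 - κ) ^ T := by
    intro T
    induction T with
    | zero =>
      refine ⟨∅, Finset.empty_subset _, le_rfl, ?_⟩
      rw [pow_zero, mul_one]
      exact_mod_cast Finset.card_filter_le _ _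
    | succ T ih =>
      obtain ⟨F, hF1, hF2, hF3⟩ := ih
      set X' := X.filter (fun x => ∀ s ∈ F, ¬ rel x s) with hX'
      obtain ⟨s, hs, hs2⟩ := COVA_step R rel κ hR X' (fun x hx => h x (Finset.mem_filter.1 hx).1)
      refine ⟨insert s F, Finset.insert_subset hs hF1, ?_, ?_⟩
      · exact (Finset.card_insert_le s F).trans (by omega)
      · have e1 : X.filter (fun x => ∀ t ∈ insert s F, ¬ rel x t) =
            X'.filter (fun x => ¬ rel x s) := by
          ext x
          simp only [hX', Finset.mem_filter, Finset.mem_insert, forall_eq_or_imp]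
          tauto
        rw [e1]
        have e2 : (X'.filter (fun x => rel x s)).card + (X'.filter (fun x => ¬ rel x s)).card =
            X'.card := Finset.card_filter_add_card_filter_not _
        have e3 : ((X'.filter (fun x => rel x s)).card : ℝ) +
            (X'.filter (fun x => ¬ rel x s)).card = X'.card := by exact_mod_cast e2
        have e4 : ((X'.filter (fun x => ¬ rel x s)).card : ℝ) ≤ (1 - κ) * X'.card := by
          linarith
        refine e4.trans ?_
        rw [pow_succ]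
        have h5 : 0 ≤ 1 - κ := by linarith
        calc (1 - κ) * (X'.card : ℝ) ≤ (1 - κ) * (X.card * (1 - κ) ^ T) :=
              mul_le_mul_of_nonneg_left hF3 h5
          _ = X.card * ((1 - κ) ^ T * (1 - κ)) := by ring
  set L := (Real.log X.card + 1) / κ with hL
  have hXpos : (0 : ℝ) < X.card := by exact_mod_cast hX.card_pos
  have hX1 : (1 : ℝ) ≤ X.card := by exact_mod_cast hX.card_pos
  have hlog : 0 ≤ Real.log X.card := Real.log_nonneg hX1
  have hL0 : 0 ≤ L := by positivity
  obtain ⟨F, hF1, hF2, hF3⟩ := claim (⌊L⌋₊ + 1)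
  refine ⟨F, hF1, ?_, ?_⟩
  · have h6 : (F.card : ℝ) ≤ ((⌊L⌋₊ + 1 : ℕ) : ℝ) := by exact_mod_cast hF2
    push_cast at h6
    have h7 := Nat.floor_le hL0
    linarith
  · have h8 : L < ((⌊L⌋₊ + 1 : ℕ) : ℝ) := by
      push_cast
      exact Nat.lt_floor_add_one L
    have h9 : (1 - κ) ^ (⌊L⌋₊ + 1) ≤ Real.exp (-κ) ^ (⌊L⌋₊ + 1) := by
      refine pow_le_pow_left₀ (by linarith) ?_ _
      have := Real.add_one_le_exp (-κ)
      linarith
    have h10 : Real.exp (-κ) ^ (⌊L⌋₊ + 1) < Real.exp (-(Real.log X.card)) := by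
      rw [← Real.exp_nat_mul, Real.exp_lt_exp]
      have h11 : Real.log X.card + 1 < ((⌊L⌋₊ + 1 : ℕ) : ℝ) * κ := by
        rw [hL, div_lt_iff₀ hκ] at h8
        exact h8
      linarith
    have h12 : (X.card : ℝ) * (1 - κ) ^ (⌊L⌋₊ + 1) < 1 := by
      have h13 : (X.card : ℝ) * (1 - κ) ^ (⌊L⌋₊ + 1) <
          X.card * Real.exp (-(Real.log X.card)) :=
        mul_lt_mul_of_pos_left (lt_of_le_of_lt h9 h10) hXpos
      rw [Real.exp_neg, Real.exp_log hXpos, mul_inv_cancel₀ hXpos.ne'] at h13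
      exact h13
    have h14 : ((X.filter (fun x => ∀ s ∈ F, ¬ rel x s)).card : ℝ) < 1 := lt_of_le_of_lt hF3 h12
    have h15 : (X.filter (fun x => ∀ s ∈ F, ¬ rel x s)).card = 0 := by
      have : (X.filter (fun x => ∀ s ∈ F, ¬ rel x s)).card < 1 := by exact_mod_cast h14
      omega
    intro x hx
    by_contra hcon
    push Not at hcon
    have h16 : x ∈ X.filter (fun x => ∀ s ∈ F, ¬ rel x s) := Finset.mem_filter.2 ⟨hx, hcon⟩
    rw [Finset.card_eq_zero] at h15
    rw [h15] at h16
    exact Finset.notMem_empty x h16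

end Pool.Agent.BK
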